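import Pool.Agent.NH60.CenFinal

/-!
Let `X` be an irreducible component of the variety `M(d)` of foliations with a center. For `F` in a
Zariski open dense subset of `X` all centers of `F` are stable.
-/

namespace Pool.Agent.Results.MP_d6d6e6_ag.GenericStability

open Pool.Agent.NH60.Cen
open scoped LinearAlgebra.Projectivization

theorem result (d : ℕ) (_hd : 2 ≤ d) (X : Set (ℙ ℂ (Forms d))) (hX : IsComponent X (centerVariety d)) :
    ∃ U : Set (ℙ ℂ (Forms d)), U ⊆ X ∧ IsOpenDense U X ∧
      ∀ F ∈ U, ∀ p : Fin 2 → ℂ, IsCenter F.rep.P F.rep.Q p → IsStable X F p :=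
  generic_stability hX.1

end Pool.Agent.Results.MP_d6d6e6_ag.GenericStability
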